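import Pool.Agent.V1157.CK.Asc

/-!
# Existence of Chow-Kunneth decompositions is invariant under modifications with nilpotent centres

`P` is a property of varieties such that the varieties with the property `P` have Chow-Kunneth
decompositions and the composition of any `m` homologically trivial correspondences between them is
zero (for example: dimension at most one, with `m = 3`). A modification `Y` of `X` is a variety
such that `h(Y) = h(X) ⊕ N`, where the projector on `N` factors through varieties with the property
`P` (for example: a blow-up along a smooth centre with the property `P`, for threefolds any blow-up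
of a point or of a smooth curve). If `X` and `Y` are connected by a chain of modifications and of
inverses of modifications, then `X` has a Chow-Kunneth decomposition if and only if `Y` has one.
No finite-dimensionality of `X` or `Y` is assumed.
-/

open CategoryTheory AlgebraicGeometry

universe u v w

namespace Pool.Agent.Results.MP_524776_ag.ModificationInvariance

open Pool.Agent.H914 Pool.Agent.H914.VarClass Pool.Agent.H914.VarClass.Obj Pool.Agent.W492.BB
  Pool.Agent.TH133 Pool.Agent.V1157.CK

theorem result {k : Type u} [Field k] {𝒱 : VarClass k} {C : TheoryData.{u, v, 0} 𝒱 ℚ}
    [IsChowProj C] {K : Type w} [Field K] {H : WeilTheoryData.{u, v, w} C K} [IsWeilProj H]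
    (P : 𝒱.Obj → Prop) (m : ℕ) (hm : NilpotentAmong H P m) (hP : ∀ T, P T → HasCK H T)
    (X Y : 𝒱.Obj) (hXY : Relation.EqvGen (IsModification C P) X Y) :
    HasCK H X ↔ HasCK H Y :=
  chain hm hP hXY

end Pool.Agent.Results.MP_524776_ag.ModificationInvariance
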